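import Pool.Agent.Helper292.ForceCH

/-!
# `S_1(Ω, Ω)` and `S_1(Ω, O^{ω-gp})` are different under the continuum hypothesis

Under CH we construct reals `x_α`, `α < ω₁`, such that the set `X` of all `x_α` and
`y_α = x_α + z_α`, where `z_α` runs through `[0, 1]`, is concentrated on every dense open set up to
countably many points and satisfies a strong form of the Scheepers property. These two properties
give `S_1(Ω, O^{ω-gp})`. Since the differences of points of `X` cover `[0, 1]`, the square of `X` is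
not small, and `S_1(Ω, Ω)` fails.
-/

set_option autoImplicit false

open Set Filter TopologicalSpace MeasureTheory

namespace Pool.Agent.Results.MP_82c070_gt.OmegaGroupable

/-- `𝒰` is an open cover of the space `Y`. -/
def IsOpenCover {Y : Type} [TopologicalSpace Y] (𝒰 : Set (Set Y)) : Prop :=
  (∀ U ∈ 𝒰, IsOpen U) ∧ ⋃₀ 𝒰 = univ

/-- `Ω`: the open `ω`-covers of `Y`. -/
def Omega (Y : Type) [TopologicalSpace Y] : Set (Set (Set Y)) :=
  {𝒰 | IsOpenCover 𝒰 ∧ univ ∉ 𝒰 ∧ ∀ F : Set Y, F.Finite → ∃ U ∈ 𝒰, F ⊆ U}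

/-- `O^{ω-gp}`: the `ω`-groupable open covers of `Y`. -/
def OmegaGp (Y : Type) [TopologicalSpace Y] : Set (Set (Set Y)) :=
  {𝒰 | IsOpenCover 𝒰 ∧ ∃ 𝓕 : ℕ → Set (Set Y), (∀ n, (𝓕 n).Finite) ∧ (∀ n, (𝓕 n).Nonempty) ∧
    (∀ m n, m ≠ n → Disjoint (𝓕 m) (𝓕 n)) ∧ (⋃ n, 𝓕 n) = 𝒰 ∧
      ∀ F : Set Y, F.Finite → ∃ n, F ⊆ ⋃₀ 𝓕 n}

/-- The selection principle `S_1(𝔄, 𝔅)`. -/
def S1 {Y : Type} (𝔄 𝔅 : Set (Set (Set Y))) : Prop :=
  ∀ 𝒰 : ℕ → Set (Set Y), (∀ n, 𝒰 n ∈ 𝔄) →
    ∃ U : ℕ → Set Y, (∀ n, U n ∈ 𝒰 n) ∧ range U ∈ 𝔅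

/-! ### Two properties of spaces -/

/-- Dense open subsets have countable complements. -/
def LusinLike (Y : Type) [TopologicalSpace Y] : Prop :=
  ∀ G : Set Y, IsOpen G → Dense G → Gᶜ.Countable

/-- A strong form of the Scheepers property. -/
def ScheepersLike (Y : Type) [TopologicalSpace Y] : Prop :=
  ∀ W : ℕ → ℕ → Set Y, (∀ n j, IsOpen (W n j)) → (∀ n x, ∃ j, x ∈ W n j) →
    ∃ g : ℕ → ℕ, ∀ F : Set Y, F.Finite → {n | ∀ x ∈ F, ∃ j ≤ g n, x ∈ W n j}.Infinite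

theorem exists_seq {β : Type} (P : ℕ → Set β → β → Prop)
    (h : ∀ n S, S.Finite → ∃ y, P n S y) : ∃ f : ℕ → β, ∀ n, P n (f '' Iio n) (f n) := by
  classical
  obtain ⟨y₀, _⟩ := h 0 ∅ finite_empty
  have : Nonempty β := ⟨y₀⟩
  choose! c hc using h
  let f : ℕ → β := fun n => Nat.strongRec (motive := fun _ => β)
    (fun n ih => c n {b | ∃ (m : ℕ) (hm : m < n), b = ih m hm}) n
  have hf : ∀ n, f n = c n (f '' Iio n) := by
    intro n
    have h1 : f n = c n {b | ∃ (m : ℕ) (_ : m < n), b = f m} := by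
      show Nat.strongRec (motive := fun _ => β) _ n = _
      rw [Nat.strongRec_eq]
    rw [h1]
    congr 1
    ext b
    constructor
    · rintro ⟨m, hm, rfl⟩; exact ⟨m, hm, rfl⟩
    · rintro ⟨m, hm, rfl⟩; exact ⟨m, hm, rfl⟩
  refine ⟨f, fun n => ?_⟩
  rw [hf n]
  exact hc n _ ((finite_Iio n).image f)

variable {Y : Type} [TopologicalSpace Y]

theorem avoid {𝒰 : Set (Set Y)} (h𝒰 : 𝒰 ∈ Omega Y) {S : Set (Set Y)} (hS : S.Finite) (x : Y) :
    ∃ U ∈ 𝒰, x ∈ U ∧ U ∉ S := by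
  classical
  have hp : ∀ V : Set Y, V ∈ 𝒰 → ∃ p, p ∉ V := by
    intro V hV
    by_contra! h
    exact h𝒰.2.1 ((eq_univ_of_forall h) ▸ hV)
  have : Nonempty Y := ⟨x⟩
  choose! p hp using hp
  obtain ⟨U, hU, hF⟩ := h𝒰.2.2 ({x} ∪ p '' S) ((finite_singleton x).union (hS.image p))
  refine ⟨U, hU, hF (Or.inl rfl), fun hUS => hp U hU (hF (Or.inr ⟨U, hUS, rfl⟩))⟩

theorem nonempty_of_omega {𝒰 : Set (Set Y)} (h𝒰 : 𝒰 ∈ Omega Y) : Nonempty Y := by
  by_contra h
  rw [not_nonempty_iff] at h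
  obtain ⟨U, hU, _⟩ := h𝒰.2.2 ∅ finite_empty
  exact h𝒰.2.1 ((Subsingleton.elim U univ) ▸ hU)

/-- A selection which covers every point infinitely often by an injective part. -/
theorem exists_selection [SeparableSpace Y] (hL : LusinLike Y) (𝒰 : ℕ → Set (Set Y))
    (h𝒰 : ∀ n, 𝒰 n ∈ Omega Y) :
    ∃ U V : ℕ → Set Y, (∀ n, U n ∈ 𝒰 n) ∧ Function.Injective V ∧ range V ⊆ range U ∧
      ∀ x, {n | x ∈ V n}.Infinite := by
  classical
  have : Nonempty Y := nonempty_of_omega (h𝒰 0)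
  -- the even selection
  obtain ⟨E, hE⟩ := exists_seq (fun n (S : Set (Set Y)) U =>
    U ∈ 𝒰 (2 * n) ∧ denseSeq Y (Nat.unpair n).1 ∈ U ∧ U ∉ S) fun n S hS => by
      obtain ⟨U, hU, hx, hUS⟩ := avoid (h𝒰 (2 * n)) hS (denseSeq Y (Nat.unpair n).1)
      exact ⟨U, hU, hx, hUS⟩
  have hEinj : Function.Injective E := by
    intro a b hab
    rcases lt_trichotomy a b with h | h | h
    · exact absurd ⟨a, h, hab⟩ (hE b).2.2
    · exact h
    · exact absurd ⟨b, h, hab.symm⟩ (hE a).2.2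
  set G : ℕ → Set Y := fun m => ⋃ n ≥ m, E n with hG
  have hGo : ∀ m, IsOpen (G m) := fun m =>
    isOpen_biUnion fun n _ => (h𝒰 (2 * n)).1.1 _ (hE n).1
  have hGd : ∀ m, Dense (G m) := by
    intro m
    refine (denseRange_denseSeq Y).mono ?_
    rintro _ ⟨k, rfl⟩
    refine mem_iUnion₂.2 ⟨Nat.pair k m, Nat.right_le_pair k m, ?_⟩
    have := (hE (Nat.pair k m)).2.1
    rwa [Nat.unpair_pair] at this
  set B : Set Y := ⋃ m, (G m)ᶜ with hB
  have hBc : B.Countable := countable_iUnion fun m => hL _ (hGo m) (hGd m)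
  have hinf : ∀ x, x ∉ B → {n | x ∈ E n}.Infinite := by
    intro x hx
    rw [infinite_iff_exists_gt]
    intro a
    have : x ∈ G (a + 1) := by
      by_contra h
      exact hx (mem_iUnion.2 ⟨_, h⟩)
    obtain ⟨n, hn, hxn⟩ := mem_iUnion₂.1 this
    exact ⟨n, hxn, hn⟩
  rcases B.eq_empty_or_nonempty with hBe | hBn
  · choose O hO using fun n => (h𝒰 n).2.2 ∅ finite_empty
    refine ⟨fun n => if n % 2 = 0 then E (n / 2) else O n, E, ?_, hEinj, ?_, ?_⟩
    · intro n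
      by_cases hn : n % 2 = 0
      · simp only [hn, if_true]
        have := (hE (n / 2)).1
        rwa [show 2 * (n / 2) = n by omega] at this
      · simp only [hn, if_false]
        exact (hO n).1
    · rintro _ ⟨n, rfl⟩
      refine ⟨2 * n, ?_⟩
      simp
    · intro x
      exact hinf x (by rw [hBe]; exact notMem_empty x)
  · obtain ⟨c, hc⟩ := hBc.exists_eq_range hBn
    obtain ⟨O, hO⟩ := exists_seq (fun n (S : Set (Set Y)) U =>
      U ∈ 𝒰 (2 * n + 1) ∧ c (Nat.unpair n).1 ∈ U ∧ U ∉ S ∧ ∀ k, U ≠ E k) fun n S hS => by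
        have hcB : c (Nat.unpair n).1 ∈ B := hc ▸ mem_range_self _
        obtain ⟨m, hm⟩ := mem_iUnion.1 hcB
        obtain ⟨U, hU, hx, hUS⟩ := avoid (h𝒰 (2 * n + 1))
          (hS.union ((finite_Iio m).image E)) (c (Nat.unpair n).1)
        refine ⟨U, hU, hx, fun h => hUS (Or.inl h), ?_⟩
        rintro k rfl
        by_cases hk : k < m
        · exact hUS (Or.inr ⟨k, hk, rfl⟩)
        · exact hm (mem_iUnion₂.2 ⟨k, not_lt.1 hk, hx⟩)
    have hOinj : Function.Injective O := by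
      intro a b hab
      rcases lt_trichotomy a b with h | h | h
      · exact absurd ⟨a, h, hab⟩ (hO b).2.2.1
      · exact h
      · exact absurd ⟨b, h, hab.symm⟩ (hO a).2.2.1
    let U : ℕ → Set Y := fun n => if n % 2 = 0 then E (n / 2) else O (n / 2)
    have hU0 : ∀ n, U (2 * n) = E n := by
      intro n
      show (if (2 * n) % 2 = 0 then E ((2 * n) / 2) else O ((2 * n) / 2)) = E n
      rw [if_pos (by omega), show 2 * n / 2 = n by omega]
    have hU1 : ∀ n, U (2 * n + 1) = O n := by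
      intro n
      show (if (2 * n + 1) % 2 = 0 then E ((2 * n + 1) / 2) else O ((2 * n + 1) / 2)) = O n
      rw [if_neg (by omega), show (2 * n + 1) / 2 = n by omega]
    have hpar : ∀ n, (∃ k, n = 2 * k) ∨ ∃ k, n = 2 * k + 1 := fun n => by
      rcases Nat.even_or_odd' n with ⟨k, h | h⟩
      · exact Or.inl ⟨k, h⟩
      · exact Or.inr ⟨k, h⟩
    refine ⟨U, U, ?_, ?_, subset_rfl, ?_⟩
    · intro n
      rcases hpar n with ⟨k, rfl⟩ | ⟨k, rfl⟩
      · rw [hU0]; exact (hE k).1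
      · rw [hU1]; exact (hO k).1
    · intro a b hab
      rcases hpar a with ⟨k, rfl⟩ | ⟨k, rfl⟩ <;> rcases hpar b with ⟨l, rfl⟩ | ⟨l, rfl⟩
      · rw [hU0, hU0] at hab; rw [hEinj hab]
      · rw [hU0, hU1] at hab; exact absurd hab.symm ((hO l).2.2.2 k)
      · rw [hU0, hU1] at hab; exact absurd hab ((hO k).2.2.2 l)
      · rw [hU1, hU1] at hab; rw [hOinj hab]
    · intro x
      by_cases hx : x ∈ B
      · rw [hc] at hx
        obtain ⟨k, rfl⟩ := hx
        rw [infinite_iff_exists_gt]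
        intro a
        refine ⟨2 * Nat.pair k a + 1, ?_, ?_⟩
        · show c k ∈ U (2 * Nat.pair k a + 1)
          rw [hU1]
          have := (hO (Nat.pair k a)).2.1
          rwa [Nat.unpair_pair] at this
        · have := Nat.right_le_pair k a
          omega
      · have h1 := hinf x hx
        refine (h1.image (f := fun n => 2 * n) ?_).mono ?_
        · intro a _ b _ hab
          have : 2 * a = 2 * b := hab
          omega
        · rintro _ ⟨n, hn, rfl⟩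
          show x ∈ U (2 * n)
          rw [hU0]
          exact hn

/-- Cutting an injective sequence into blocks. -/
theorem exists_blocks (hS : ScheepersLike Y) (V : ℕ → Set Y) (hVo : ∀ n, IsOpen (V n))
    (hV : ∀ x, {n | x ∈ V n}.Infinite) :
    ∃ b : ℕ → ℕ, StrictMono b ∧ b 0 = 0 ∧ ∀ F : Set Y, F.Finite →
      ∃ m, ∀ x ∈ F, ∃ i, b m ≤ i ∧ i < b (m + 1) ∧ x ∈ V i := by
  classical
  obtain ⟨g, hg⟩ := hS (fun n j => V (n + j)) (fun n j => hVo _) fun n x => by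
    obtain ⟨m, hm, hnm⟩ := (infinite_iff_exists_gt.1 (hV x)) n
    refine ⟨m - n, ?_⟩
    show x ∈ V (n + (m - n))
    rwa [show n + (m - n) = m by omega]
  -- the fast sequence
  let a : ℕ → ℕ := fun k => Nat.rec 0 (fun _ y => y + (∑ t ∈ Finset.range (y + 1), (t + g t)) + 1) k
  have ha0 : a 0 = 0 := rfl
  have has : ∀ k, a (k + 1) = a k + (∑ t ∈ Finset.range (a k + 1), (t + g t)) + 1 := fun _ => rfl
  have hamono : StrictMono a := strictMono_nat_of_lt_succ fun k => by rw [has]; omega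
  have hag : ∀ k t, t ≤ a k → t + g t < a (k + 1) := by
    intro k t ht
    have h1 : t + g t ≤ ∑ t ∈ Finset.range (a k + 1), (t + g t) :=
      Finset.single_le_sum (f := fun t => t + g t) (fun _ _ => Nat.zero_le _)
        (Finset.mem_range.2 (by omega))
    rw [has]
    omega
  -- the blocks of length two
  let P : Set Y → Set ℕ := fun F => {k | ∀ x ∈ F, ∃ i, a k ≤ i ∧ i < a (k + 2) ∧ x ∈ V i}
  have hP : ∀ F : Set Y, F.Finite → (P F).Infinite := by
    intro F hF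
    rw [infinite_iff_exists_gt]
    intro k₀
    obtain ⟨n, hn, hkn⟩ := (infinite_iff_exists_gt.1 (hg F hF)) (a (k₀ + 1))
    -- the block containing `n`
    have hex : ∃ k, n < a (k + 1) := ⟨n, lt_of_lt_of_le (Nat.lt_succ_self n) (hamono.id_le (n + 1))⟩
    set k := Nat.find hex with hk
    have hk1 : n < a (k + 1) := Nat.find_spec hex
    have hk0 : k₀ < k := by
      by_contra h
      have := hamono.monotone (show k + 1 ≤ k₀ + 1 by omega)
      omega
    have hk2 : a k ≤ n := by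
      have := Nat.find_min hex (m := k - 1) (by omega)
      rw [show k - 1 + 1 = k by omega] at this
      omega
    refine ⟨k, fun x hx => ?_, hk0⟩
    obtain ⟨j, hj, hxj⟩ := hn x hx
    refine ⟨n + j, by omega, ?_, hxj⟩
    have := hag (k + 1) n (by omega)
    rw [show k + 1 + 1 = k + 2 by omega] at this
    omega
  have hPmono : ∀ F F' : Set Y, F ⊆ F' → P F' ⊆ P F := fun F F' h k hk x hx => hk x (h hx)
  rcases Classical.em (∀ F : Set Y, F.Finite → ∃ m : ℕ, 2 * m ∈ P F) with heven | heven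
  · refine ⟨fun m => a (2 * m), fun m n hmn => hamono (by omega), rfl, fun F hF => ?_⟩
    obtain ⟨m, hm⟩ := heven F hF
    exact ⟨m, fun x hx => hm x hx⟩
  · push Not at heven
    obtain ⟨F₀, hF₀, hno⟩ := heven
    refine ⟨fun m => if m = 0 then 0 else a (2 * m + 1), ?_, if_pos rfl, fun F hF => ?_⟩
    · refine strictMono_nat_of_lt_succ fun m => ?_
      show (if m = 0 then 0 else a (2 * m + 1)) < (if m + 1 = 0 then 0 else a (2 * (m + 1) + 1))
      rw [if_neg (Nat.succ_ne_zero m)]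
      have h1 : a (2 * m + 1) < a (2 * (m + 1) + 1) :=
        hamono (show 2 * m + 1 < 2 * (m + 1) + 1 by omega)
      split_ifs
      · omega
      · exact h1
    · obtain ⟨k, hk⟩ := (hP (F ∪ F₀) (hF.union hF₀)).nonempty
      rcases Nat.even_or_odd' k with ⟨m, h | h⟩
      · exact absurd (hPmono F₀ _ subset_union_right (h ▸ hk)) (hno m)
      · refine ⟨m, fun x hx => ?_⟩
        obtain ⟨i, hi1, hi2, hxi⟩ := hPmono F _ subset_union_left hk x hx
        subst h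
        refine ⟨i, ?_, ?_, hxi⟩
        · show (if m = 0 then 0 else a (2 * m + 1)) ≤ i
          split_ifs
          · exact Nat.zero_le _
          · exact hi1
        · show i < (if m + 1 = 0 then 0 else a (2 * (m + 1) + 1))
          rw [if_neg (Nat.succ_ne_zero m), show 2 * (m + 1) + 1 = 2 * m + 1 + 2 by omega]
          exact hi2

theorem S1_omegaGp [SeparableSpace Y] (hL : LusinLike Y) (hS : ScheepersLike Y) :
    S1 (Omega Y) (OmegaGp Y) := by
  classical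
  intro 𝒰 h𝒰
  obtain ⟨U, V, hU, hVinj, hVU, hV⟩ := exists_selection hL 𝒰 h𝒰
  have hUo : ∀ n, IsOpen (U n) := fun n => (h𝒰 n).1.1 _ (hU n)
  have hVo : ∀ n, IsOpen (V n) := fun n => by
    obtain ⟨k, hk⟩ := hVU (mem_range_self n)
    exact hk ▸ hUo k
  obtain ⟨b, hb, hb0, hbF⟩ := exists_blocks hS V hVo hV
  have hblock : ∀ i, ∃ m, b m ≤ i ∧ i < b (m + 1) := by
    intro i
    have hex : ∃ k, i < b (k + 1) := ⟨i, lt_of_lt_of_le (Nat.lt_succ_self i) (hb.id_le (i + 1))⟩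
    refine ⟨Nat.find hex, ?_, Nat.find_spec hex⟩
    rcases Nat.eq_zero_or_pos (Nat.find hex) with h | h
    · rw [h, hb0]; exact Nat.zero_le _
    · have := Nat.find_min hex (m := Nat.find hex - 1) (by omega)
      rw [show Nat.find hex - 1 + 1 = Nat.find hex by omega] at this
      omega
  refine ⟨U, hU, ⟨?_, ?_⟩, fun m => V '' Ico (b m) (b (m + 1)) ∪ ({U m} \ (range V ∪ U '' Iio m)),
    ?_, ?_, ?_, ?_, ?_⟩
  · rintro _ ⟨n, rfl⟩; exact hUo n
  · refine eq_univ_of_forall fun x => ?_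
    obtain ⟨n, hn⟩ := (hV x).nonempty
    exact ⟨V n, hVU (mem_range_self n), hn⟩
  · intro m
    exact ((finite_Ico _ _).image V).union ((finite_singleton _).sdiff)
  · intro m
    exact ⟨V (b m), Or.inl ⟨b m, ⟨le_rfl, hb (Nat.lt_succ_self m)⟩, rfl⟩⟩
  · intro m n hmn
    wlog h : m < n generalizing m n
    · exact (this n m (Ne.symm hmn) (by omega)).symm
    rw [Set.disjoint_left]
    rintro W (⟨i, hi, rfl⟩ | ⟨h1, h2⟩) (⟨j, hj, hij⟩ | ⟨h3, h4⟩)
    · have := hVinj hij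
      subst this
      have := hb.monotone (show m + 1 ≤ n by omega)
      have h5 := hi.2
      have h6 := hj.1
      omega
    · exact h4 (Or.inl (mem_range_self i))
    · exact h2 (Or.inl (hij ▸ mem_range_self j))
    · rw [mem_singleton_iff] at h1 h3
      exact h4 (Or.inr ⟨m, h, h1.symm.trans rfl⟩)
  · apply subset_antisymm
    · refine iUnion_subset fun m => union_subset ?_ ?_
      · rintro _ ⟨i, _, rfl⟩; exact hVU (mem_range_self i)
      · rintro W ⟨h1, _⟩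
        exact ⟨m, (mem_singleton_iff.1 h1).symm⟩
    · rintro W ⟨n, hn⟩
      by_cases hW : W ∈ range V
      · obtain ⟨i, rfl⟩ := hW
        obtain ⟨m, hm1, hm2⟩ := hblock i
        exact mem_iUnion.2 ⟨m, Or.inl ⟨i, ⟨hm1, hm2⟩, rfl⟩⟩
      · have hex : ∃ n, U n = W := ⟨n, hn⟩
        refine mem_iUnion.2 ⟨Nat.find hex, Or.inr ⟨(Nat.find_spec hex).symm, ?_⟩⟩
        rintro (h | ⟨k, hk, hkW⟩)
        · exact hW h
        · exact Nat.find_min hex hk hkW
  · intro F hF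
    obtain ⟨m, hm⟩ := hbF F hF
    refine ⟨m, fun x hx => ?_⟩
    obtain ⟨i, h1, h2, hxi⟩ := hm x hx
    exact ⟨V i, Or.inl ⟨i, ⟨h1, h2⟩, rfl⟩, hxi⟩

/-! ### The property `S_1(Ω, Ω)` -/

/-- A set of reals whose differences cover the unit interval does not have `S_1(Ω, Ω)`. -/
theorem not_S1_omega (X : Set ℝ) (hX : ∀ z ∈ Icc (0 : ℝ) 1, ∃ x ∈ X, x + z ∈ X) :
    ¬ S1 (Omega X) (Omega X) := by
  intro hS
  obtain ⟨ε, hε, hsum⟩ := ENNReal.exists_pos_sum_of_countable' (one_ne_zero) ℕ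
  let Df : Set X → Set ℝ := fun U => {t | ∃ x ∈ U, ∃ y ∈ U, t = (y : ℝ) - x}
  have hDX : ∀ U : Set X, U = univ → (1 : ENNReal) ≤ volume (Df U) := by
    rintro U rfl
    have h1 : Icc (0 : ℝ) 1 ⊆ Df univ := by
      intro z hz
      obtain ⟨x, hx, hxz⟩ := hX z hz
      exact ⟨⟨x, hx⟩, mem_univ _, ⟨x + z, hxz⟩, mem_univ _, by simp⟩
    calc (1 : ENNReal) = volume (Icc (0 : ℝ) 1) := by simp
      _ ≤ _ := measure_mono h1
  have hfin : ∀ (F : Set X), F.Finite → ∀ e : ENNReal, 0 < e →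
      ∃ U : Set X, IsOpen U ∧ F ⊆ U ∧ volume (Df U) < e := by
    intro F hF e he
    have hFD : (Df F).Finite := by
      refine ((hF.prod hF).image fun p : X × X => (p.2 : ℝ) - p.1).subset ?_
      rintro t ⟨x, hx, y, hy, rfl⟩
      exact ⟨(x, y), ⟨hx, hy⟩, rfl⟩
    obtain ⟨V, hFV, hVo, hV⟩ := (Df F).exists_isOpen_lt_of_lt (μ := volume) e
      (by rw [hFD.measure_zero volume]; exact he)
    have hcont : Continuous fun p : X × X => (p.2 : ℝ) - p.1 := by fun_prop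
    obtain ⟨u, v, hu, hv, hFu, hFv, huv⟩ := generalized_tube_lemma hF.isCompact hF.isCompact
      (hVo.preimage hcont) (by
        rintro ⟨x, y⟩ ⟨hx, hy⟩
        exact hFV ⟨x, hx, y, hy, rfl⟩)
    refine ⟨u ∩ v, hu.inter hv, subset_inter hFu hFv, lt_of_le_of_lt (measure_mono ?_) hV⟩
    rintro t ⟨x, hx, y, hy, rfl⟩
    exact huv (show (x, y) ∈ u ×ˢ v from ⟨hx.1, hy.2⟩)
  have hε1 : ∀ n, ε n < 1 := fun n => lt_of_le_of_lt (ENNReal.le_tsum n) hsum
  obtain ⟨U, hU, hUΩ⟩ := hS (fun n => {U | IsOpen U ∧ volume (Df U) < ε n}) (by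
    intro n
    refine ⟨⟨fun U hU => hU.1, eq_univ_of_forall fun x => ?_⟩, ?_, ?_⟩
    · obtain ⟨U, hU, hxU, hUe⟩ := hfin {x} (finite_singleton x) (ε n) (hε n)
      exact ⟨U, ⟨hU, hUe⟩, hxU rfl⟩
    · rintro ⟨_, h⟩
      exact absurd (hDX univ rfl) (not_le.2 (h.trans (hε1 n)))
    · intro F hF
      obtain ⟨U, hU, hxU, hUe⟩ := hfin F hF (ε n) (hε n)
      exact ⟨U, ⟨hU, hUe⟩, hxU⟩)
  have h1 : Icc (0 : ℝ) 1 ⊆ ⋃ n, Df (U n) := by
    intro z hz
    obtain ⟨x, hx, hxz⟩ := hX z hz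
    obtain ⟨_, ⟨n, rfl⟩, hFn⟩ := hUΩ.2.2 {⟨x, hx⟩, ⟨x + z, hxz⟩} (toFinite _)
    exact mem_iUnion.2 ⟨n, ⟨x, hx⟩, hFn (by simp), ⟨x + z, hxz⟩, hFn (by simp), by simp⟩
  have h2 : (1 : ENNReal) ≤ ∑' n, ε n := by
    calc (1 : ENNReal) = volume (Icc (0 : ℝ) 1) := by simp
      _ ≤ volume (⋃ n, Df (U n)) := measure_mono h1
      _ ≤ ∑' n, volume (Df (U n)) := measure_iUnion_le _
      _ ≤ ∑' n, ε n := ENNReal.tsum_le_tsum fun n => (hU n).2.le
  exact absurd h2 (not_le.2 hsum)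

/-! ### The first uncountable ordinal -/

/-- The first uncountable ordinal, as a well-ordered type. -/
abbrev I : Type := (Cardinal.aleph 1).ord.ToType

theorem countable_Iio (a : I) : (Iio a).Countable := by
  have h : Cardinal.mk (Iio a) < Cardinal.aleph 1 := by
    have := Cardinal.mk_Iio_lt a (by simp)
    simpa using this
  rw [← Cardinal.le_aleph0_iff_set_countable]
  exact Order.lt_succ_iff.1 (h.trans_eq Cardinal.succ_aleph0.symm)

theorem countable_Iic (a : I) : (Iic a).Countable := by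
  refine ((countable_Iio a).union (countable_singleton a)).mono fun b hb => ?_
  rcases (mem_Iic.1 hb).lt_or_eq with h | h
  · exact Or.inl h
  · exact Or.inr h

theorem exists_rec {β : Type} (P : (a : I) → (Iio a → β) → β → Prop)
    (h : ∀ a f, ∃ y, P a f y) : ∃ F : I → β, ∀ a, P a (fun b => F b) (F a) := by
  choose c hc using h
  let F : I → β := (wellFounded_lt (α := I)).fix fun a ih => c a fun b => ih b.1 b.2
  refine ⟨F, fun a => ?_⟩
  have h1 : F a = c a fun b => F b := WellFounded.fix_eq _ _ _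
  rw [h1]
  exact hc a _

/-! ### The construction -/

/-- Double sequences of open sets, all of whose rows have dense unions. -/
abbrev Dbl : Type := {W : ℕ → ℕ → Opens ℝ // ∀ n, Dense {x | ∃ j, x ∈ W n j}}

/-- The union of an initial part of the `n`-th row. -/
def St (W : Dbl) (g : ℕ → ℕ) (n : ℕ) : Set ℝ := {x | ∃ j ≤ g n, x ∈ W.1 n j}

theorem isOpen_St (W : Dbl) (g : ℕ → ℕ) (n : ℕ) : IsOpen (St W g n) := by
  have : St W g n = ⋃ j ≤ g n, (W.1 n j : Set ℝ) := by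
    ext x; simp [St]
  rw [this]
  exact isOpen_biUnion fun j _ => (W.1 n j).2

/-- The function `g` is good for `W`. -/
def Good (W : Dbl) (g : ℕ → ℕ) : Prop :=
  ∀ s : Set ℝ, IsOpen s → s.Nonempty → ∀ᶠ n in atTop, ∀ z ∈ Icc (0 : ℝ) 1,
    ∃ x ∈ s, x ∈ St W g n ∧ x + z ∈ St W g n

theorem exists_uniform (W : Dbl) (n : ℕ) {s : Set ℝ} (hs : IsOpen s) (hsn : s.Nonempty) :
    ∃ k : ℕ, ∀ z ∈ Icc (0 : ℝ) 1, ∃ x ∈ s, (∃ j ≤ k, x ∈ W.1 n j) ∧ ∃ j ≤ k, x + z ∈ W.1 n j := by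
  let A : ℕ → Set ℝ := fun k => ⋃ j ≤ k, (W.1 n j : Set ℝ)
  have hA : ∀ k, IsOpen (A k) := fun k => isOpen_biUnion fun j _ => (W.1 n j).2
  have hAm : Monotone A := fun k l hkl x hx => by
    obtain ⟨j, hj, hxj⟩ := mem_iUnion₂.1 hx
    exact mem_iUnion₂.2 ⟨j, hj.trans hkl, hxj⟩
  let V : ℕ → Set ℝ := fun k => ⋃ x ∈ s ∩ A k, (fun z => x + z) ⁻¹' A k
  have hV : ∀ k, IsOpen (V k) := fun k => isOpen_biUnion fun x _ =>
    (hA k).preimage (by fun_prop)
  have hVm : Monotone V := fun k l hkl z hz => by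
    obtain ⟨x, hx, hz⟩ := mem_iUnion₂.1 hz
    exact mem_iUnion₂.2 ⟨x, ⟨hx.1, hAm hkl hx.2⟩, hAm hkl hz⟩
  have hcov : Icc (0 : ℝ) 1 ⊆ ⋃ k, V k := by
    intro z _
    have hd : Dense {x | ∃ j, x ∈ W.1 n j} := W.2 n
    have ho : IsOpen {x | ∃ j, x ∈ W.1 n j} := by
      have : {x | ∃ j, x ∈ W.1 n j} = ⋃ j, (W.1 n j : Set ℝ) := by ext x; simp
      rw [this]
      exact isOpen_iUnion fun j => (W.1 n j).2
    have hd2 : Dense ((fun x => x + z) ⁻¹' {x | ∃ j, x ∈ W.1 n j}) :=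
      hd.preimage (Homeomorph.addRight z).isOpenMap
    have ho2 : IsOpen ((fun x => x + z) ⁻¹' {x | ∃ j, x ∈ W.1 n j}) :=
      ho.preimage (by fun_prop)
    obtain ⟨x, hxs, hx1, hx2⟩ := (hd.inter_of_isOpen_left hd2 ho).inter_open_nonempty s hs hsn
    obtain ⟨i, hi⟩ := hx1
    obtain ⟨j, hj⟩ := hx2
    refine mem_iUnion.2 ⟨max i j, mem_iUnion₂.2 ⟨x, ⟨hxs, ?_⟩, ?_⟩⟩
    · exact mem_iUnion₂.2 ⟨i, le_max_left _ _, hi⟩
    · exact mem_iUnion₂.2 ⟨j, le_max_right _ _, hj⟩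
  obtain ⟨k, hk⟩ := isCompact_Icc.elim_directed_cover V hV hcov hVm.directed_le
  refine ⟨k, fun z hz => ?_⟩
  obtain ⟨x, hx, hz⟩ := mem_iUnion₂.1 (hk hz)
  obtain ⟨i, hi, hxi⟩ := mem_iUnion₂.1 hx.2
  obtain ⟨j, hj, hxj⟩ := mem_iUnion₂.1 hz
  exact ⟨x, hx.1, ⟨i, hi, hxi⟩, ⟨j, hj, hxj⟩⟩

theorem exists_good (W : Dbl) (Z : Set ℝ) (hZ : Z.Countable) :
    ∃ g, Good W g ∧ ∀ x ∈ Z, (∀ n, ∃ j, x ∈ W.1 n j) → ∀ᶠ n in atTop, x ∈ St W g n := by
  classical
  obtain ⟨b, hbc, hbe, hb⟩ := exists_countable_basis ℝ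
  have hbn : b.Nonempty := by
    obtain ⟨s, hs, _⟩ := hb.exists_subset_of_mem_open (mem_univ (0 : ℝ)) isOpen_univ
    exact ⟨s, hs⟩
  obtain ⟨s, hs⟩ := hbc.exists_eq_range hbn
  have hs1 : ∀ i, IsOpen (s i) ∧ (s i).Nonempty := fun i => by
    have h : s i ∈ b := hs ▸ mem_range_self i
    refine ⟨hb.isOpen h, ?_⟩
    rw [nonempty_iff_ne_empty]
    rintro h0
    exact hbe (h0 ▸ h)
  choose k hk using fun n i => exists_uniform W n (hs1 i).1 (hs1 i).2
  obtain ⟨c, hc⟩ := (hZ.insert 0).exists_eq_range ⟨0, mem_insert _ _⟩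
  let h : ℕ → ℕ → ℕ := fun i n => if hx : ∃ j, c i ∈ W.1 n j then Nat.find hx else 0
  refine ⟨fun n => ∑ i ∈ Finset.range (n + 1), (k n i + h i n), ?_, ?_⟩
  · intro t ht htn
    obtain ⟨x, hx⟩ := htn
    obtain ⟨u, hu, hxu, hut⟩ := hb.exists_subset_of_mem_open hx ht
    rw [hs] at hu
    obtain ⟨i, rfl⟩ := hu
    filter_upwards [eventually_ge_atTop i] with n hn z hz
    obtain ⟨x, hxs, ⟨j, hj, hxj⟩, ⟨l, hl, hxl⟩⟩ := hk n i z hz
    have hle : k n i ≤ ∑ i ∈ Finset.range (n + 1), (k n i + h i n) :=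
      le_trans (Nat.le_add_right _ _) (Finset.single_le_sum (f := fun i => k n i + h i n)
        (fun _ _ => Nat.zero_le _) (Finset.mem_range.2 (by omega)))
    exact ⟨x, hut hxs, ⟨j, hj.trans hle, hxj⟩, ⟨l, hl.trans hle, hxl⟩⟩
  · intro x hx hxW
    have : x ∈ range c := hc ▸ mem_insert_of_mem _ hx
    obtain ⟨i, rfl⟩ := this
    filter_upwards [eventually_ge_atTop i] with n hn
    have hle : h i n ≤ ∑ i ∈ Finset.range (n + 1), (k n i + h i n) :=
      le_trans (Nat.le_add_left _ _) (Finset.single_le_sum (f := fun i => k n i + h i n)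
        (fun _ _ => Nat.zero_le _) (Finset.mem_range.2 (by omega)))
    refine ⟨h i n, hle, ?_⟩
    show c i ∈ W.1 n (h i n)
    simp only [h, dif_pos (hxW n)]
    exact Nat.find_spec (hxW n)

theorem exists_point {κ : Type} [Countable κ] (W : κ → Dbl) (g : κ → ℕ → ℕ) (N : κ → Set ℕ)
    (hN : ∀ i, (N i).Infinite) (hg : ∀ i, Good (W i) (g i)) {z : ℝ} (hz : z ∈ Icc (0 : ℝ) 1) :
    ∃ x, ∀ i, {n | n ∈ N i ∧ x ∈ St (W i) (g i) n ∧ x + z ∈ St (W i) (g i) n}.Infinite := by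
  let O : κ × ℕ → Set ℝ := fun p => ⋃ n ∈ N p.1 ∩ Ioi p.2,
    (St (W p.1) (g p.1) n ∩ (fun x => x + z) ⁻¹' St (W p.1) (g p.1) n)
  have hO : ∀ p, IsOpen (O p) := fun p => isOpen_biUnion fun n _ =>
    (isOpen_St _ _ _).inter ((isOpen_St _ _ _).preimage (by fun_prop))
  have hOd : ∀ p, Dense (O p) := by
    rintro ⟨i, m⟩
    rw [dense_iff_inter_open]
    intro s hs hsn
    obtain ⟨M, hM⟩ := eventually_atTop.1 (hg i s hs hsn)
    obtain ⟨n, hn, hMn⟩ := (infinite_iff_exists_gt.1 (hN i)) (max m M)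
    obtain ⟨x, hxs, hx1, hx2⟩ := hM n (by omega) z hz
    exact ⟨x, hxs, mem_iUnion₂.2 ⟨n, ⟨hn, mem_Ioi.2 (by omega)⟩, hx1, hx2⟩⟩
  obtain ⟨x, hx⟩ := (dense_iInter_of_isOpen hO hOd).nonempty
  refine ⟨x, fun i => ?_⟩
  rw [infinite_iff_exists_gt]
  intro m
  obtain ⟨n, hn, hxn⟩ := mem_iUnion₂.1 (mem_iInter.1 hx (i, m))
  exact ⟨n, ⟨hn.1, hxn.1, hxn.2⟩, hn.2⟩

theorem exists_family (z : I → ℝ) (hz : ∀ a, z a ∈ Icc (0 : ℝ) 1) (W : I → Dbl) :
    ∃ (x : I → ℝ) (g : I → ℕ → ℕ),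
      (∀ a b, b ≤ a → (∀ n, ∃ j, x b ∈ (W a).1 n j) → (∀ n, ∃ j, x b + z b ∈ (W a).1 n j) →
        ∀ᶠ n in atTop, x b ∈ St (W a) (g a) n ∧ x b + z b ∈ St (W a) (g a) n) ∧
      (∀ a b, b < a → ∀ A : Finset I, (∀ c ∈ A, c < a) →
        {n | ∀ c ∈ A, x c ∈ St (W b) (g b) n ∧ x c + z c ∈ St (W b) (g b) n}.Infinite →
        {n | (∀ c ∈ A, x c ∈ St (W b) (g b) n ∧ x c + z c ∈ St (W b) (g b) n) ∧
          x a ∈ St (W b) (g b) n ∧ x a + z a ∈ St (W b) (g b) n}.Infinite) := by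
  classical
  obtain ⟨F, hF⟩ := exists_rec (β := ℝ × (ℕ → ℕ)) (fun a f y =>
    (Good (W a) y.2 ∧ (∀ t ∈ insert y.1 (insert (y.1 + z a)
      ((range fun b => (f b).1) ∪ range fun b : Iio a => (f b).1 + z b)),
        (∀ n, ∃ j, t ∈ (W a).1 n j) → ∀ᶠ n in atTop, t ∈ St (W a) y.2 n)) ∧
    ∀ b : Iio a, Good (W b) (f b).2 → ∀ A : Finset (Iio a),
      {n | ∀ c ∈ A, (f c).1 ∈ St (W b) (f b).2 n ∧ (f c).1 + z c ∈ St (W b) (f b).2 n}.Infinite →
      {n | (∀ c ∈ A, (f c).1 ∈ St (W b) (f b).2 n ∧ (f c).1 + z c ∈ St (W b) (f b).2 n) ∧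
        y.1 ∈ St (W b) (f b).2 n ∧ y.1 + z a ∈ St (W b) (f b).2 n}.Infinite) (by
    intro a f
    have : Countable (Iio a) := (countable_Iio a).to_subtype
    let κ : Type := {p : Iio a × Finset (Iio a) // Good (W p.1) (f p.1).2 ∧
      {n | ∀ c ∈ p.2, (f c).1 ∈ St (W p.1) (f p.1).2 n ∧
        (f c).1 + z c ∈ St (W p.1) (f p.1).2 n}.Infinite}
    obtain ⟨x, hx⟩ := exists_point (κ := κ) (fun p => W p.1.1) (fun p => (f p.1.1).2)
      (fun p => {n | ∀ c ∈ p.1.2, (f c).1 ∈ St (W p.1.1) (f p.1.1).2 n ∧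
        (f c).1 + z c ∈ St (W p.1.1) (f p.1.1).2 n}) (fun p => p.2.2) (fun p => p.2.1) (hz a)
    obtain ⟨g, hg1, hg2⟩ := exists_good (W a) (insert x (insert (x + z a)
      ((range fun b => (f b).1) ∪ range fun b : Iio a => (f b).1 + z b)))
      (((countable_range _).union (countable_range _)).insert _ |>.insert _)
    exact ⟨(x, g), ⟨hg1, hg2⟩, fun b hb A hA => hx ⟨(b, A), hb, hA⟩⟩)
  refine ⟨fun a => (F a).1, fun a => (F a).2, ?_, ?_⟩
  · intro a b hba h1 h2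
    have key := (hF a).1.2
    rcases hba.lt_or_eq with h | h
    · exact (key _ (mem_insert_of_mem _ (mem_insert_of_mem _ (Or.inl ⟨⟨b, h⟩, rfl⟩))) h1).and
        (key _ (mem_insert_of_mem _ (mem_insert_of_mem _ (Or.inr ⟨⟨b, h⟩, rfl⟩))) h2)
    · subst h
      exact (key _ (mem_insert _ _) h1).and
        (key _ (mem_insert_of_mem _ (mem_insert _ _)) h2)
  · intro a b hba A hA hinf
    have key := (hF a).2 ⟨b, hba⟩ (hF b).1.1 (A.subtype (· < a))
    have hmem : ∀ n, (∀ c ∈ A.subtype (· < a), (F c).1 ∈ St (W b) (F b).2 n ∧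
        (F c).1 + z c ∈ St (W b) (F b).2 n) ↔ ∀ c ∈ A, (F c).1 ∈ St (W b) (F b).2 n ∧
          (F c).1 + z c ∈ St (W b) (F b).2 n := by
      intro n
      constructor
      · intro h c hc
        exact h ⟨c, hA c hc⟩ (Finset.mem_subtype.2 hc)
      · intro h c hc
        exact h c (Finset.mem_subtype.1 hc)
    have h1 := key (by
      refine hinf.mono fun n hn => ?_
      exact (hmem n).2 hn)
    refine h1.mono fun n hn => ⟨?_, hn.2⟩
    exact (hmem n).1 hn.1

theorem mk_opens_le : Cardinal.mk (Opens ℝ) ≤ Cardinal.continuum := by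
  obtain ⟨b, hbc, hbe, hb⟩ := exists_countable_basis ℝ
  have hinj : Function.Injective (fun U : Opens ℝ => {s : b | (s : Set ℝ) ⊆ U}) := by
    intro U V hUV
    have h : ∀ s : b, (s : Set ℝ) ⊆ U ↔ (s : Set ℝ) ⊆ V := fun s => by
      have := Set.ext_iff.1 hUV s
      exact this
    have aux : ∀ U V : Opens ℝ, (∀ s : b, (s : Set ℝ) ⊆ U ↔ (s : Set ℝ) ⊆ V) → U ≤ V := by
      intro U V h x hx
      obtain ⟨s, hs, hxs, hsU⟩ := hb.exists_subset_of_mem_open hx U.2
      exact (h ⟨s, hs⟩).1 hsU hxs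
    exact le_antisymm (aux U V h) (aux V U fun s => (h s).symm)
  calc Cardinal.mk (Opens ℝ) ≤ Cardinal.mk (Set b) := Cardinal.mk_le_of_injective hinj
    _ = 2 ^ Cardinal.mk b := Cardinal.mk_set
    _ ≤ 2 ^ Cardinal.aleph0 :=
      Cardinal.power_le_power_left two_ne_zero (Cardinal.le_aleph0_iff_set_countable.2 hbc)
    _ = Cardinal.continuum := Cardinal.two_power_aleph0

theorem mk_dbl_le : Cardinal.mk (ℕ → ℕ → Opens ℝ) ≤ Cardinal.continuum := by
  have h : Cardinal.mk (ℕ → ℕ → Opens ℝ) =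
      (Cardinal.mk (Opens ℝ) ^ Cardinal.aleph0) ^ Cardinal.aleph0 := by
    simp
  rw [h]
  calc _ ≤ (Cardinal.continuum ^ Cardinal.aleph0) ^ Cardinal.aleph0 :=
        Cardinal.power_le_power_right (Cardinal.power_le_power_right mk_opens_le)
    _ = _ := by simp

theorem exists_set (hCH : Cardinal.aleph 1 = Cardinal.continuum.{0}) :
    ∃ X : Set ℝ, S1 (Omega X) (OmegaGp X) ∧ ¬ S1 (Omega X) (Omega X) := by
  classical
  -- the enumerations
  have hI : Cardinal.mk I = Cardinal.continuum := by simp [hCH]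
  obtain ⟨z, hz⟩ : ∃ z : I → Icc (0 : ℝ) 1, Function.Surjective z := by
    have h : Cardinal.mk (Icc (0 : ℝ) 1) = Cardinal.mk I := by
      rw [hI, Cardinal.mk_Icc_real zero_lt_one]
    obtain ⟨e⟩ := Cardinal.eq.1 h
    exact ⟨e.symm, e.symm.surjective⟩
  obtain ⟨W, hW⟩ : ∃ W : I → Dbl, Function.Surjective W := by
    have h1 : Cardinal.mk Dbl ≤ Cardinal.mk I := by
      rw [hI]
      exact (Cardinal.mk_subtype_le _).trans mk_dbl_le
    obtain ⟨e⟩ := Cardinal.le_def _ _ |>.1 h1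
    have : Nonempty Dbl := ⟨⟨fun _ _ => ⊤, fun n => by simp⟩⟩
    exact ⟨Function.invFun e, Function.invFun_surjective e.injective⟩
  obtain ⟨x, g, hg, hx⟩ := exists_family (fun a => z a) (fun a => (z a).2) W
  let X : Set ℝ := range x ∪ range fun a => x a + z a
  refine ⟨X, S1_omegaGp ?_ ?_, not_S1_omega X ?_⟩
  · -- Lusin
    intro G hG hGd
    obtain ⟨G', hG', rfl⟩ := isOpen_induced_iff.1 hG
    let D : Opens ℝ := ⟨G' ∪ (closure X)ᶜ, hG'.union isClosed_closure.isOpen_compl⟩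
    have hD : Dense (D : Set ℝ) := by
      have h1 : X ⊆ closure G' := by
        intro t ht
        rw [mem_closure_iff]
        intro o ho hto
        obtain ⟨y, hyo, hyG⟩ := hGd.inter_open_nonempty (Subtype.val ⁻¹' o)
          (ho.preimage continuous_subtype_val) ⟨⟨t, ht⟩, hto⟩
        exact ⟨y, hyo, hyG⟩
      intro t
      by_cases ht : t ∈ closure X
      · exact closure_mono subset_union_left (closure_minimal h1 isClosed_closure ht)
      · exact subset_closure (Or.inr ht)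
    obtain ⟨b, hb⟩ := hW ⟨fun _ _ => D, fun n => by simpa using hD⟩
    have key : ∀ a, b < a → x a ∈ D ∧ x a + z a ∈ D := by
      intro a hba
      have h1 := (hx a b hba ∅ (by simp) (by simpa using infinite_univ)).nonempty
      obtain ⟨n, -, ⟨j, -, hj⟩, ⟨k, -, hk⟩⟩ := h1
      rw [hb] at hj hk
      exact ⟨hj, hk⟩
    have hsub : ((Subtype.val ⁻¹' G' : Set X))ᶜ ⊆
        Subtype.val ⁻¹' (x '' Iic b ∪ (fun a => x a + z a) '' Iic b) := by
      rintro ⟨t, ht⟩ htG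
      have htG' : t ∉ G' := htG
      have htX : t ∈ closure X := subset_closure ht
      rcases ht with ⟨a, rfl⟩ | ⟨a, rfl⟩
      · refine Or.inl ⟨a, ?_, rfl⟩
        by_contra h
        rcases (key a (not_le.1 h)).1 with h | h
        · exact htG' h
        · exact h htX
      · refine Or.inr ⟨a, ?_, rfl⟩
        by_contra h
        rcases (key a (not_le.1 h)).2 with h | h
        · exact htG' h
        · exact h htX
    exact ((((countable_Iic b).image _).union ((countable_Iic b).image _)).preimage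
      Subtype.val_injective).mono hsub
  · -- Scheepers
    intro V hVo hVc
    choose V' hV' hVV using fun n j => isOpen_induced_iff.1 (hVo n j)
    let D : ℕ → ℕ → Opens ℝ := fun n j =>
      ⟨V' n j ∪ (closure X)ᶜ, (hV' n j).union isClosed_closure.isOpen_compl⟩
    have hXD : ∀ t ∈ X, ∀ n, ∃ j, t ∈ V' n j := by
      intro t ht n
      obtain ⟨j, hj⟩ := hVc n ⟨t, ht⟩
      rw [← hVV n j] at hj
      exact ⟨j, hj⟩
    have hD : ∀ n, Dense {t | ∃ j, t ∈ D n j} := by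
      intro n t
      by_cases ht : t ∈ closure X
      · refine closure_mono ?_ ht
        intro u hu
        obtain ⟨j, hj⟩ := hXD u hu n
        exact ⟨j, Or.inl hj⟩
      · exact subset_closure ⟨0, Or.inr ht⟩
    obtain ⟨b, hb⟩ := hW ⟨D, hD⟩
    have hbD : (W b).1 = D := by rw [hb]
    have hmain : ∀ A : Finset I, {n | ∀ c ∈ A, x c ∈ St (W b) (g b) n ∧
        x c + z c ∈ St (W b) (g b) n}.Infinite := by
      intro A
      induction A using Finset.induction_on_max with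
      | empty => simpa using infinite_univ
      | insert a s has ih =>
        rcases le_or_gt a b with hab | hab
        · have h1 : ∀ c ∈ insert a s, ∀ᶠ n in atTop, x c ∈ St (W b) (g b) n ∧
              x c + z c ∈ St (W b) (g b) n := by
            intro c hc
            refine hg b c ?_ (fun n => ?_) (fun n => ?_)
            · rcases Finset.mem_insert.1 hc with rfl | hc
              · exact hab
              · exact ((has c hc).trans_le hab).le
            · obtain ⟨j, hj⟩ := hXD (x c) (Or.inl ⟨c, rfl⟩) n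
              exact ⟨j, hbD ▸ Or.inl hj⟩
            · obtain ⟨j, hj⟩ := hXD (x c + z c) (Or.inr ⟨c, rfl⟩) n
              exact ⟨j, hbD ▸ Or.inl hj⟩
          have h2 := (Finset.eventually_all (insert a s)).2 h1
          obtain ⟨M, hM⟩ := eventually_atTop.1 h2
          exact (Ici_infinite M).mono fun n hn => hM n hn
        · refine (hx a b hab s has ih).mono fun n hn => ?_
          intro c hc
          rcases Finset.mem_insert.1 hc with rfl | hc
          · exact hn.2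
          · exact hn.1 c hc
    refine ⟨g b, fun F hF => ?_⟩
    have hsel : ∀ t : X, ∃ c : I, (t : ℝ) = x c ∨ (t : ℝ) = x c + z c := by
      rintro ⟨t, ⟨c, rfl⟩ | ⟨c, rfl⟩⟩
      · exact ⟨c, Or.inl rfl⟩
      · exact ⟨c, Or.inr rfl⟩
    choose c hc using hsel
    refine (hmain (hF.image c).toFinset).mono fun n hn => ?_
    intro t ht
    have h1 := hn (c t) (by simpa using ⟨t, t.2, ht, rfl⟩)
    have h2 : (t : ℝ) ∈ St (W b) (g b) n := by
      rcases hc t with h | h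
      · rw [h]; exact h1.1
      · rw [h]; exact h1.2
    obtain ⟨j, hj, htj⟩ := h2
    refine ⟨j, hj, ?_⟩
    rw [hbD] at htj
    rw [← hVV n j]
    rcases htj with h | h
    · exact h
    · exact absurd (subset_closure t.2) h
  · -- differences
    intro t ht
    obtain ⟨a, ha⟩ := hz ⟨t, ht⟩
    refine ⟨x a, Or.inl ⟨a, rfl⟩, Or.inr ⟨a, ?_⟩⟩
    show x a + (z a : ℝ) = x a + t
    rw [ha]

/-- **Main result.** (1) The continuum hypothesis can be forced. (2) Under the continuum hypothesis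
there is a set of reals with `S_1(Ω, O^{ω-gp})` and without `S_1(Ω, Ω)`. -/
theorem result :
    (∃ (P : Type) (_ : Preorder P), Nonempty P ∧ ∀ p : P,
      p ∈ Pool.Agent.Helper292.ForceCH.OmegaOnePreserved P ∧
      p ∈ Pool.Agent.Helper292.ForceCH.CHHolds P) ∧
    (Cardinal.aleph 1 = Cardinal.continuum.{0} →
      ∃ X : Set ℝ, S1 (Omega X) (OmegaGp X) ∧ ¬ S1 (Omega X) (Omega X)) := by
  refine ⟨?_, exists_set⟩
  obtain ⟨P, i, h1, h2⟩ := Pool.Agent.Helper292.ForceCH.exists_forcing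
  exact ⟨P, i, h1, fun p => ⟨(h2 p).1, (h2 p).2.2⟩⟩

end Pool.Agent.Results.MP_82c070_gt.OmegaGroupable
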